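import Pool.Agent.H.MP_0e9457_al.D

set_option autoImplicit false

namespace Pool.Agent.Results.MP_0e9457_al.Morse

open Pool.Agent.H.MP_0e9457_al Filter Topology

/-- The topological full group of the Morse subshift contains a finitely generated subgroup of
intermediate growth. -/
theorem result : ∃ S : Finset (X ≃ₜ X), (∀ f ∈ S, IsFull f) ∧ (∀ r, (ball S r).Finite) ∧
    (∀ d : ℕ, Tendsto (fun r : ℕ => ((ball S r).ncard : ℝ) / r ^ d) atTop atTop) ∧
    ∀ c : ℝ, 0 < c →
      Tendsto (fun r : ℕ => ((ball S r).ncard : ℝ) / Real.exp (c * r)) atTop (𝓝 0) := by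
  classical
  let Φ : List L → X ≃ₜ X := fun w => (w.map gen).prod
  let F : (ℕ → ℕ) → X ≃ₜ X := fun f => Φ (Function.invFun ev f)
  have hF : ∀ w, F (ev w) = Φ w := fun w => (evX_iff _ _).2 (Function.invFun_eq ⟨w, rfl⟩)
  have hb : ∀ r, ball (Finset.univ.image gen) r = F '' Bl r := fun r => by
    ext f
    constructor
    · rintro ⟨l, h1, h2, rfl⟩
      obtain ⟨w, rfl⟩ : ∃ w : List L, w.map gen = l := by
        have h3 : ∀ s ∈ l, ∃ a, gen a = s := fun s hs => by
          rcases h2 s hs with h | h <;> obtain ⟨a, -, e⟩ := Finset.mem_image.1 h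
          · exact ⟨a, e⟩
          · exact ⟨a, by rw [← inv_inv s, ← e]; rfl⟩
        clear h1 h2
        induction l with
        | nil => exact ⟨[], rfl⟩
        | cons s l ih =>
          obtain ⟨w, rfl⟩ := ih fun s hs => h3 s (List.mem_cons_of_mem _ hs)
          obtain ⟨a, rfl⟩ := h3 s List.mem_cons_self
          exact ⟨a :: w, rfl⟩
      exact ⟨_, ⟨w, by simpa using h1, rfl⟩, hF w⟩
    · rintro ⟨_, ⟨w, h1, rfl⟩, rfl⟩
      exact ⟨w.map gen, by simpa using h1, fun s hs => Or.inl (by
        obtain ⟨l, -, rfl⟩ := List.mem_map.1 hs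
        exact Finset.mem_image_of_mem _ (Finset.mem_univ l)), (hF w).symm⟩
  have hc : ∀ r, (ball (Finset.univ.image gen) r).ncard = (Bl r).ncard := fun r => by
    rw [hb, Set.ncard_image_of_injOn]
    rintro _ ⟨u, -, rfl⟩ _ ⟨v, -, rfl⟩ e
    rw [hF, hF] at e
    exact (evX_iff u v).1 e
  refine ⟨Finset.univ.image gen, fun f hf => ?_, fun r => hb r ▸ (Bl_fin r).image F,
    fun d => by simpa only [hc] using low d, fun c h => by simpa only [hc] using upp h⟩
  obtain ⟨l, -, rfl⟩ := Finset.mem_image.1 hf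
  exact gen_full l

end Pool.Agent.Results.MP_0e9457_al.Morse
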